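import Mathlib
import Pool.Agent.H84.PPDefs
import Pool.Agent.H84.PPEx

set_option autoImplicit false

namespace Pool.Agent.Results.MP_a15e14_gt.Metric

open Pool.Agent.H84.PPDefs

theorem result : ∀ x ∈ G, ∀ y ∈ G, ∀ z ∈ G, pG x y ≤ pG x z + pG z y :=
  fun _ hx _ hy _ hz => Pool.Agent.H84.PPEx.main hx hy hz

end Pool.Agent.Results.MP_a15e14_gt.Metric
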